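import Pool.Agent.Helper18.RD.Stmts

/-! Project RD (MP_b7477f_nt): row SUM, the sum of the squares of a double character sum. -/

set_option autoImplicit false

namespace Pool.Agent.Helper18.RD

open Finset

/-- the Jacobi symbol is at most one in absolute value -/
theorem abs_jac_le (a : ℤ) (r : ℕ) : |jacobiSym a r| ≤ 1 := by
  rcases jacobiSym.trichotomy a r with h | h | h <;> rw [h] <;> simp

/-- trivial bound for a sum of Jacobi symbols -/
theorem abs_sum_jac_le (n : ℤ) (Z : ℕ) :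
    |∑ r ∈ (Icc 1 Z).filter (fun r => Odd r), jacobiSym n r| ≤ Z := by
  refine (abs_sum_le_sum_abs _ _).trans ?_
  refine (sum_le_sum fun r _ => abs_jac_le n r).trans ?_
  rw [sum_const, nsmul_eq_mul, mul_one]
  have h := card_filter_le (Icc 1 Z) (fun r => Odd r)
  rw [Nat.card_Icc] at h
  exact_mod_cast h

theorem st_SUM (hP : ST_PER) : ST_SUM := by
  intro ι _ T C D K0 Z hT
  have e1 : ∑ r ∈ (Icc 1 Z).filter (fun r => Odd r), ∑ r' ∈ (Icc 1 Z).filter (fun r => Odd r),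
      (∑ t ∈ T, jacobiSym (C t) r * jacobiSym (D t) r') ^ 2 =
      ∑ x ∈ T ×ˢ T, (∑ r ∈ (Icc 1 Z).filter (fun r => Odd r), jacobiSym (C x.1 * C x.2) r) *
        ∑ r ∈ (Icc 1 Z).filter (fun r => Odd r), jacobiSym (D x.1 * D x.2) r := by
    have h1 : ∀ r r' : ℕ, (∑ t ∈ T, jacobiSym (C t) r * jacobiSym (D t) r') ^ 2 =
        ∑ x ∈ T ×ˢ T, jacobiSym (C x.1 * C x.2) r * jacobiSym (D x.1 * D x.2) r' := by
      intro r r'
      rw [sq, sum_mul_sum, sum_product]
      refine sum_congr rfl fun t _ => sum_congr rfl fun t' _ => ?_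
      rw [jacobiSym.mul_left, jacobiSym.mul_left]
      ring
    simp_rw [h1]
    rw [sum_congr rfl fun r _ => sum_comm, sum_comm]
    exact sum_congr rfl fun x _ => (sum_mul_sum _ _ _ _).symm
  rw [e1]
  have hK : (0 : ℤ) ≤ 4 * (K0 : ℤ) ^ 2 := by positivity
  have hZ : (0 : ℤ) ≤ (Z : ℤ) := by positivity
  -- bound for one factor, nonsquare case
  have hns : ∀ m m' : ℤ, m ≠ 0 → |m| ≤ K0 → m' ≠ 0 → |m'| ≤ K0 → ¬ IsSquare (m * m') →
      |∑ r ∈ (Icc 1 Z).filter (fun r => Odd r), jacobiSym (m * m') r| ≤ 4 * (K0 : ℤ) ^ 2 := by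
    intro m m' h0 h1 h0' h1' hs
    refine (hP _ (mul_ne_zero h0 h0') hs Z).trans ?_
    rw [abs_mul]
    have : |m| * |m'| ≤ (K0 : ℤ) * K0 := mul_le_mul h1 h1' (abs_nonneg _) (by positivity)
    nlinarith
  have hb : ∀ x ∈ T ×ˢ T, (∑ r ∈ (Icc 1 Z).filter (fun r => Odd r), jacobiSym (C x.1 * C x.2) r) *
        ∑ r ∈ (Icc 1 Z).filter (fun r => Odd r), jacobiSym (D x.1 * D x.2) r ≤
      (if IsSquare (C x.1 * C x.2) ∧ IsSquare (D x.1 * D x.2) then (Z : ℤ) ^ 2 else 0) +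
        (2 * Z * (4 * (K0 : ℤ) ^ 2) + (4 * (K0 : ℤ) ^ 2) ^ 2) := by
    intro x hx
    rw [mem_product] at hx
    obtain ⟨c0, c1, d0, d1⟩ := hT _ hx.1
    obtain ⟨c0', c1', d0', d1'⟩ := hT _ hx.2
    refine (le_abs_self _).trans ?_
    rw [abs_mul]
    have a1 := abs_sum_jac_le (C x.1 * C x.2) Z
    have b1 := abs_sum_jac_le (D x.1 * D x.2) Z
    have a0 := abs_nonneg (∑ r ∈ (Icc 1 Z).filter (fun r => Odd r), jacobiSym (C x.1 * C x.2) r)
    have b0 := abs_nonneg (∑ r ∈ (Icc 1 Z).filter (fun r => Odd r), jacobiSym (D x.1 * D x.2) r)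
    by_cases hc : IsSquare (C x.1 * C x.2)
    · by_cases hd : IsSquare (D x.1 * D x.2)
      · rw [if_pos ⟨hc, hd⟩]
        have := mul_le_mul a1 b1 b0 hZ
        nlinarith [mul_nonneg hZ hK, mul_nonneg hK hK]
      · rw [if_neg (fun h => hd h.2)]
        have b2 := hns _ _ d0 d1 d0' d1' hd
        have := mul_le_mul a1 b2 b0 hZ
        nlinarith [mul_nonneg hZ hK, mul_nonneg hK hK]
    · rw [if_neg (fun h => hc h.1)]
      have a2 := hns _ _ c0 c1 c0' c1' hc
      have := mul_le_mul a2 b1 b0 hK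
      nlinarith [mul_nonneg hZ hK, mul_nonneg hK hK]
  refine (sum_le_sum hb).trans ?_
  rw [sum_add_distrib, ← sum_filter, sum_const, sum_const, card_product, nsmul_eq_mul,
    nsmul_eq_mul]
  push_cast
  apply le_of_eq
  ring

end Pool.Agent.Helper18.RD
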